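import Mathlib

namespace Pool.Agent.Results.MP_fbf3cb_al.NonabelianIntegrableVariety

universe u

open scoped commutatorElement

/-- `G` satisfies all the laws `w = 1`, `w ∈ W`; the words `w` are elements of the free group on
the letters `x₀, x₁, x₂, …`.  The class of all groups satisfying `W` is the variety defined by
`W`. -/
def InVariety (W : Set (FreeGroup ℕ)) (G : Type u) [Group G] : Prop :=
  ∀ w ∈ W, ∀ f : ℕ → G, FreeGroup.lift f w = 1

/-- `G` has an integral: a group `H` whose derived subgroup is isomorphic to `G`. -/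
def Integrable (G : Type u) [Group G] : Prop :=
  ∃ (H : Type u) (_ : Group H), Nonempty (commutator H ≃* G)

/-- The two laws `x₀ ^ 3 = 1` and `[[x₀, x₁], x₂] = 1` (exponent `3`, class at most `2`). -/
def laws : Set (FreeGroup ℕ) :=
  {FreeGroup.of 0 ^ 3, ⁅⁅FreeGroup.of 0, FreeGroup.of 1⁆, FreeGroup.of 2⁆}

theorem inVariety_laws_iff (G : Type u) [Group G] :
    InVariety laws G ↔ (∀ x : G, x ^ 3 = 1) ∧ ∀ x y z : G, ⁅⁅x, y⁆, z⁆ = 1 := by
  constructor
  · intro h
    refine ⟨fun x => ?_, fun x y z => ?_⟩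
    · have h1 := h (FreeGroup.of 0 ^ 3) (Or.inl rfl) (fun _ => x)
      simpa using h1
    · have h1 := h ⁅⁅FreeGroup.of 0, FreeGroup.of 1⁆, FreeGroup.of 2⁆ (Or.inr rfl)
        (fun n => if n = 0 then x else if n = 1 then y else z)
      simpa [map_commutatorElement] using h1
  · rintro ⟨h3, h2⟩ w hw f
    rcases hw with rfl | rfl
    · simp [h3]
    · simp [map_commutatorElement, h2]

section heis

/-- the Heisenberg group over the field with three elements -/
@[ext] structure Heis where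
  a : ZMod 3
  b : ZMod 3
  c : ZMod 3

instance : Mul Heis := ⟨fun x y => ⟨x.a + y.a, x.b + y.b, x.c + y.c + x.a * y.b⟩⟩
instance : One Heis := ⟨⟨0, 0, 0⟩⟩
instance : Inv Heis := ⟨fun x => ⟨-x.a, -x.b, -x.c + x.a * x.b⟩⟩

@[simp] theorem mul_a (x y : Heis) : (x * y).a = x.a + y.a := rfl
@[simp] theorem mul_b (x y : Heis) : (x * y).b = x.b + y.b := rfl
@[simp] theorem mul_c (x y : Heis) : (x * y).c = x.c + y.c + x.a * y.b := rfl
@[simp] theorem one_a : (1 : Heis).a = 0 := rfl
@[simp] theorem one_b : (1 : Heis).b = 0 := rfl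
@[simp] theorem one_c : (1 : Heis).c = 0 := rfl
@[simp] theorem inv_a (x : Heis) : (x⁻¹).a = -x.a := rfl
@[simp] theorem inv_b (x : Heis) : (x⁻¹).b = -x.b := rfl
@[simp] theorem inv_c (x : Heis) : (x⁻¹).c = -x.c + x.a * x.b := rfl

instance : Group Heis :=
  Group.ofLeftAxioms
    (by intro x y z; ext <;> simp <;> ring)
    (by intro x; ext <;> simp)
    (by intro x; ext <;> simp)

theorem heis_pow (x : Heis) : x ^ 3 = 1 := by
  have h3 : (3 : ZMod 3) = 0 := rfl
  rw [pow_succ, pow_succ, pow_one]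
  ext
  · simp only [mul_a, one_a]; linear_combination x.a * h3
  · simp only [mul_b, one_b]; linear_combination x.b * h3
  · simp only [mul_c, mul_a, one_c]; linear_combination (x.c + x.a * x.b) * h3

theorem heis_comm (x y z : Heis) : ⁅⁅x, y⁆, z⁆ = 1 := by
  simp only [commutatorElement_def]
  ext
  · simp
  · simp
  · simp
    ring

end heis

section class2

variable {G : Type u} [Group G] (h3 : ∀ x : G, x ^ 3 = 1) (h2 : ∀ x y z : G, ⁅⁅x, y⁆, z⁆ = 1)

include h2 in
theorem cen (x y z : G) : ⁅x, y⁆ * z = z * ⁅x, y⁆ := commutatorElement_eq_one_iff_mul_comm.mp (h2 x y z)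

include h2 in
theorem cen_mem {d : G} (hd : d ∈ commutator G) (z : G) : d * z = z * d := by
  have h : commutator G ≤ Subgroup.center G := by
    rw [commutator_eq_closure, Subgroup.closure_le]
    rintro _ ⟨x, y, rfl⟩
    exact Subgroup.mem_center_iff.mpr fun z => (cen h2 x y z).symm
  exact (Subgroup.mem_center_iff.mp (h hd) z).symm

include h2 in
theorem mul_left (x y z : G) : ⁅x * y, z⁆ = ⁅x, z⁆ * ⁅y, z⁆ := by
  have e : ⁅x * y, z⁆ = x * ⁅y, z⁆ * x⁻¹ * ⁅x, z⁆ := by
    simp only [commutatorElement_def]; group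
  rw [e, ← cen h2 y z x, mul_inv_cancel_right, cen h2]

include h2 in
theorem mul_right (x y z : G) : ⁅x, y * z⁆ = ⁅x, y⁆ * ⁅x, z⁆ := by
  have e : ⁅x, y * z⁆ = ⁅x, y⁆ * (y * ⁅x, z⁆ * y⁻¹) := by
    simp only [commutatorElement_def]; group
  rw [e, ← cen h2 x z y, mul_inv_cancel_right]

theorem two (h3 : ∀ x : G, x ^ 3 = 1) (d : G) : d * d = d⁻¹ := by
  rw [eq_inv_iff_mul_eq_one, ← pow_two, ← pow_succ]
  exact h3 d

/-- the underlying type of `G`, to be equipped with Baer's addition -/
@[ext] structure B (G : Type u) [Group G] (_ : ∀ x : G, x ^ 3 = 1)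
    (_ : ∀ x y z : G, ⁅⁅x, y⁆, z⁆ = 1) : Type u where
  val : G

instance : Add (B G h3 h2) := ⟨fun x y => ⟨x.val * y.val * ⁅x.val, y.val⁆⟩⟩
instance : Zero (B G h3 h2) := ⟨⟨1⟩⟩
instance : Neg (B G h3 h2) := ⟨fun x => ⟨x.val⁻¹⟩⟩

theorem val_add (x y : B G h3 h2) : (x + y).val = x.val * y.val * ⁅x.val, y.val⁆ := rfl
theorem val_zero : (0 : B G h3 h2).val = 1 := rfl
theorem val_neg (x : B G h3 h2) : (-x).val = x.val⁻¹ := rfl

noncomputable instance : AddCommGroup (B G h3 h2) where
  add_assoc := by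
    rintro ⟨x⟩ ⟨y⟩ ⟨z⟩
    apply B.ext
    simp only [val_add]
    rw [mul_left h2, mul_left h2, mul_right h2, mul_right h2, h2]
    have h4 : ⁅x, ⁅y, z⁆⁆ = 1 := by
      rw [← commutatorElement_inv, h2, inv_one]
    have ha := cen h2 x y
    have hd := cen h2 y z
    rw [h4, mul_one, mul_one, mul_assoc (x * y) _ z, ha z]
    simp only [mul_assoc]
    rw [hd (⁅x, y⁆ * ⁅x, z⁆), mul_assoc]
  zero_add := by
    rintro ⟨x⟩
    apply B.ext
    rw [val_add, val_zero, commutatorElement_one_left, one_mul, mul_one]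
  add_zero := by
    rintro ⟨x⟩
    apply B.ext
    rw [val_add, val_zero, commutatorElement_one_right, mul_one, mul_one]
  neg_add_cancel := by
    rintro ⟨x⟩
    apply B.ext
    rw [val_add, val_neg, val_zero]
    simp only [commutatorElement_def]; group
  add_comm := by
    rintro ⟨x⟩ ⟨y⟩
    apply B.ext
    rw [val_add, val_add]
    have h1 : x * y = ⁅x, y⁆ * (y * x) := by simp only [commutatorElement_def]; group
    rw [← commutatorElement_inv x y, ← two h3 ⁅x, y⁆, h1, cen h2 x y, mul_assoc]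
  nsmul := nsmulRec
  zsmul := zsmulRec

theorem three_nsmul (x : B G h3 h2) : 3 • x = 0 := by
  rw [succ_nsmul, succ_nsmul, one_nsmul]
  obtain ⟨x⟩ := x
  apply B.ext
  simp only [val_add, val_zero]
  have h1 : ⁅x, x⁆ = 1 := commutatorElement_self x
  rw [mul_left h2, mul_left h2, h1]
  simp only [commutatorElement_one_left, mul_one]
  have h4 := h3 x
  rwa [pow_succ, pow_two] at h4

noncomputable instance : Module (ZMod 3) (B G h3 h2) :=
  AddCommGroup.zmodModule (three_nsmul h3 h2)

/-- the derived subgroup as an additive subgroup -/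
def D : AddSubgroup (B G h3 h2) where
  carrier := {x | x.val ∈ commutator G}
  add_mem' := by
    intro x y hx hy
    change x.val * y.val * ⁅x.val, y.val⁆ ∈ commutator G
    exact mul_mem (mul_mem hx hy)
      (Subgroup.commutator_mem_commutator (Subgroup.mem_top _) (Subgroup.mem_top _))
  zero_mem' := one_mem (commutator G)
  neg_mem' := by
    intro x hx
    change x.val⁻¹ ∈ commutator G
    exact inv_mem hx

theorem mem_D (x : B G h3 h2) : x ∈ D h3 h2 ↔ x.val ∈ commutator G := Iff.rfl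

include h3 h2 in
theorem exists_P : ∃ P : G → G, (∀ x, P x ∈ commutator G) ∧ (∀ d ∈ commutator G, P d = d) ∧
    ∀ x y, P (x * y) = P x * P y * ⁅x, y⁆⁻¹ := by
  have : Fact (Nat.Prime 3) := ⟨Nat.prime_three⟩
  obtain ⟨g, hg⟩ := LinearMap.exists_leftInverse_of_injective
    (AddSubgroup.toZModSubmodule 3 (D h3 h2)).subtype (by simp)
  have hmem : ∀ x : B G h3 h2, x ∈ AddSubgroup.toZModSubmodule 3 (D h3 h2) ↔
      x.val ∈ commutator G := fun x => by
    rw [AddSubgroup.mem_toZModSubmodule, mem_D]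
  have hP : ∀ x : B G h3 h2, (g x : B G h3 h2).val ∈ commutator G := fun x => (hmem _).mp (g x).2
  have hid : ∀ x : B G h3 h2, x.val ∈ commutator G → (g x : B G h3 h2) = x := by
    intro x hx
    have h1 := (hmem _).mpr hx
    have h5 := LinearMap.congr_fun hg ⟨x, h1⟩
    exact congrArg Subtype.val h5
  refine ⟨fun x => (g ⟨x⟩ : B G h3 h2).val, fun x => hP _, fun d hd => ?_, fun x y => ?_⟩
  · dsimp only
    rw [hid _ hd]
  · dsimp only
    have hxy : ⁅x, y⁆ ∈ commutator G :=
      Subgroup.commutator_mem_commutator (Subgroup.mem_top _) (Subgroup.mem_top _)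
    have e1 : (⟨x * y⟩ : B G h3 h2) = ⟨x⟩ + ⟨y⟩ + ⟨⁅x, y⁆⁻¹⟩ := by
      apply B.ext
      simp only [val_add]
      have h6 : ⁅x * y * ⁅x, y⁆, ⁅x, y⁆⁻¹⁆ = 1 := by
        rw [commutatorElement_eq_one_iff_mul_comm]
        exact (cen_mem h2 (inv_mem hxy) _).symm
      rw [h6, mul_one, mul_inv_cancel_right]
    have e2 : ∀ a b : B G h3 h2, b.val ∈ commutator G → (a + b).val = a.val * b.val := by
      intro a b hb
      rw [val_add]
      have h6 : ⁅a.val, b.val⁆ = 1 := by
        rw [commutatorElement_eq_one_iff_mul_comm]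
        exact (cen_mem h2 hb _).symm
      rw [h6, mul_one]
    rw [e1, map_add, map_add, Submodule.coe_add, Submodule.coe_add, e2 _ _ (hP _), e2 _ _ (hP _),
      hid ⟨⁅x, y⁆⁻¹⟩ (inv_mem hxy)]

include h3 h2 in
theorem exists_alpha : ∃ α : G ≃* G, ∀ x : G, ∃ d ∈ commutator G, α x * x⁻¹ * d = x := by
  obtain ⟨P, hP, hid, hmul⟩ := exists_P h3 h2
  have hPc : ∀ x z, P x * z = z * P x := fun x z => cen_mem h2 (hP x) z
  obtain ⟨α, hα0⟩ : ∃ α : G → G, ∀ x, α x = (x * P x)⁻¹ := ⟨_, fun _ => rfl⟩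
  have hα : ∀ x y, α (x * y) = α x * α y := by
    intro x y
    rw [hα0, hα0, hα0, ← mul_inv_rev, hmul]
    congr 1
    have hxy : ⁅x, y⁆⁻¹ ∈ commutator G := inv_mem
      (Subgroup.commutator_mem_commutator (Subgroup.mem_top _) (Subgroup.mem_top _))
    have h7 : x * y * ⁅x, y⁆⁻¹ = y * x := by
      rw [← cen_mem h2 hxy]
      simp only [commutatorElement_def]; group
    rw [← cen_mem h2 hxy, ← mul_assoc (x * y), h7, mul_assoc y x, mul_assoc y,
      hPc y (x * P x), ← mul_assoc x]
  have hαd : ∀ d ∈ commutator G, α d = d := by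
    intro d hd
    rw [hα0, hid d hd, two h3, inv_inv]
  have hα1 : α 1 = 1 := hαd 1 (one_mem _)
  have hαinv : ∀ x, α x⁻¹ = (α x)⁻¹ := by
    intro x
    rw [eq_inv_iff_mul_eq_one, ← hα, inv_mul_cancel, hα1]
  have hαα : ∀ x, α (α x) = x := by
    intro x
    rw [hα0 x, hαinv, hα, hαd _ (hP x), hα0 x, mul_inv_rev, inv_inv, ← hPc, inv_mul_cancel_left]
  refine ⟨⟨⟨α, α, hαα, hαα⟩, hα⟩, fun x => ⟨P x, hP x, ?_⟩⟩
  change α x * x⁻¹ * P x = x
  rw [hα0, mul_assoc, ← hPc x x⁻¹, mul_inv_rev, mul_assoc, ← mul_assoc x⁻¹, ← hPc x x⁻¹,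
    mul_assoc, inv_mul_cancel_left, two h3, inv_inv]

include h3 h2 in
theorem integrable : Integrable G := by
  obtain ⟨α, hα⟩ := exists_alpha h3 h2
  obtain ⟨φ, hφ⟩ : ∃ φ : Multiplicative ℤ →* MulAut G, φ (Multiplicative.ofAdd (1 : ℤ)) = α :=
    ⟨zpowersHom (MulAut G) α, by simp⟩
  refine ⟨G ⋊[φ] Multiplicative ℤ, inferInstance, ?_⟩
  have h1 : commutator (G ⋊[φ] Multiplicative ℤ) =
      (SemidirectProduct.inl : G →* G ⋊[φ] Multiplicative ℤ).range := by
    apply le_antisymm
    · rw [SemidirectProduct.range_inl_eq_ker_rightHom]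
      exact Abelianization.commutator_subset_ker _
    · rintro _ ⟨x, rfl⟩
      obtain ⟨d, hd, hx⟩ := hα x
      have e : (SemidirectProduct.inl (α x * x⁻¹) : G ⋊[φ] Multiplicative ℤ) =
          ⁅(SemidirectProduct.inr (Multiplicative.ofAdd (1 : ℤ)) : G ⋊[φ] Multiplicative ℤ),
            (SemidirectProduct.inl x : G ⋊[φ] Multiplicative ℤ)⁆ := by
        rw [map_mul, ← hφ, SemidirectProduct.inl_aut, commutatorElement_def, map_inv, map_inv]
      rw [← hx, map_mul]
      refine mul_mem ?_ ?_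
      · rw [e]
        exact Subgroup.commutator_mem_commutator (Subgroup.mem_top _) (Subgroup.mem_top _)
      · have h5 : (SemidirectProduct.inl d : G ⋊[φ] Multiplicative ℤ) ∈
            (commutator G).map SemidirectProduct.inl := Subgroup.mem_map_of_mem _ hd
        rw [commutator_def, Subgroup.map_commutator] at h5
        exact Subgroup.commutator_mono le_top le_top h5
  rw [h1]
  exact ⟨(MonoidHom.ofInjective SemidirectProduct.inl_injective).symm⟩

end class2

/-- There is a variety of groups, defined by the two laws `x₀ ^ 3 = 1` and `[[x₀, x₁], x₂] = 1`,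
which contains a non-abelian group and all of whose members have an integral. -/
theorem result :
    (∃ (G : Type u) (_ : Group G), InVariety laws G ∧ ∃ x y : G, x * y ≠ y * x) ∧
      ∀ (G : Type u) [Group G], InVariety laws G → Integrable G := by
  constructor
  · refine ⟨ULift.{u} Heis, inferInstance, ?_, ⟨⟨1, 0, 0⟩⟩, ⟨⟨0, 1, 0⟩⟩, ?_⟩
    · rw [inVariety_laws_iff]
      refine ⟨fun x => ?_, fun x y z => ?_⟩
      · apply MulEquiv.ulift.injective
        rw [map_pow, map_one]
        exact heis_pow _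
      · apply MulEquiv.ulift.injective
        rw [map_commutatorElement, map_commutatorElement, map_one]
        exact heis_comm _ _ _
    · intro h
      have h1 := congrArg (fun g : ULift.{u} Heis => g.down.c) h
      simp at h1
  · intro G _ hG
    obtain ⟨h3, h2⟩ := (inVariety_laws_iff G).mp hG
    exact integrable h3 h2

end Pool.Agent.Results.MP_fbf3cb_al.NonabelianIntegrableVariety
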